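import Pool.Agent.Helper5.LD.Defs
import Pool.Agent.Helper42.TBV.Dilog
import Pool.Agent.Helper66.LD.Interp

/-! # Row V1: the lattice lemma (helper37) -/

set_option autoImplicit false

namespace Pool.Agent.Helper48.SB
open Finset Complex Filter Topology
open Pool.Agent.Helper42.TBV (th th_pos th_mul th_tendsto)
open Pool.Agent.Helper5.LD

namespace V1

theorem norm_gauss (θ : ℝ) (z : ℂ) : ‖exp (-(z ^ 2) / (θ : ℂ))‖ = Real.exp (-(z.re ^ 2 - z.im ^ 2) / θ) := by
  rw [Complex.norm_exp]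
  congr 1
  rw [div_ofReal_re]
  congr 1
  rw [neg_re, _root_.sq, mul_re]
  ring

theorem lat1 {ρ ε : ℝ} (hρ : 0 < ρ) (hρ1 : ρ ≤ 1/10) (hε : 0 < ε) : ∃ ρ' > 0, ρ' ≤ ρ ∧ ∃ ε' > 0, ∃ η > 0,
    ∀ᶠ m : ℕ in atTop, ∀ h : ℂ → ℂ, DifferentiableOn ℂ h (Metric.ball 0 ρ) →
      (∀ z ∈ Metric.ball (0 : ℂ) ρ, ‖h z‖ ≤ Real.exp (η / th m)) →
      (∀ k : ℕ, k < m → |xk m k| < ρ → ‖h (xk m k : ℂ)‖ ≤ Real.exp (-ε / th m)) →
      ∀ z ∈ Metric.ball (0 : ℂ) ρ', ‖h z‖ ≤ Real.exp (-ε' / th m) := by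
  set δ : ℝ := min (ρ ^ 2 / 12) ε with hδ
  have hδ0 : 0 < δ := lt_min (by positivity) hε
  have hδρ : δ ≤ ρ ^ 2 / 12 := min_le_left _ _
  have hδε : δ ≤ ε := min_le_right _ _
  have hρ2 : ρ ^ 2 ≤ ρ / 10 := by
    have h1 := mul_le_mul_of_nonneg_left hρ1 hρ.le
    rw [pow_two]
    linarith
  have hδ1 : δ ≤ ρ / 120 := by linarith
  have hδ2 : δ ^ 2 ≤ δ := by
    have h1 : δ ≤ 1 := by linarith
    have h2 := mul_le_mul_of_nonneg_left h1 hδ0.le
    rw [pow_two]
    linarith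
  refine ⟨δ / 16, by positivity, by linarith, δ / 4, by positivity, δ / 4, by positivity, ?_⟩
  have hev : ∀ᶠ m : ℕ in atTop, th m < min (ρ / 12) (δ ^ 2 / 256) :=
    th_tendsto.eventually_lt_const (by positivity)
  filter_upwards [hev] with m hm
  set θ : ℝ := th m with hθ
  have hθ0 : 0 < θ := th_pos m
  have hθ1 : θ < ρ / 12 := lt_of_lt_of_le hm (min_le_left _ _)
  have hθ2 : θ < δ ^ 2 / 256 := lt_of_lt_of_le hm (min_le_right _ _)
  have hθm : (2 * m + 1) * θ = 2 * Real.pi := th_mul m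
  have hpi := Real.pi_gt_three
  have hpi4 := Real.pi_le_four
  have hπρ : 3 * ρ ≤ Real.pi * ρ := mul_le_mul_of_nonneg_right hpi.le hρ.le
  have hθ3 : θ ^ 2 ≤ θ := by
    have h1 : θ ≤ 1 := by linarith
    have h2 := mul_le_mul_of_nonneg_left h1 hθ0.le
    rw [pow_two]
    linarith
  intro h hd hb hk z hz
  rw [mem_ball_zero_iff] at hz
  -- the nodes
  set a : ℤ := ⌈(Real.pi - ρ / 2) / (2 * θ)⌉ with ha
  set b : ℤ := ⌊(Real.pi + ρ / 2) / (2 * θ)⌋ - 1 with hbd
  have ha1 : Real.pi - ρ / 2 ≤ 2 * a * θ := by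
    have := Int.le_ceil ((Real.pi - ρ / 2) / (2 * θ))
    rw [div_le_iff₀ (by positivity)] at this
    linarith
  have ha2 : 2 * a * θ < Real.pi - ρ / 2 + 2 * θ := by
    have := Int.ceil_lt_add_one ((Real.pi - ρ / 2) / (2 * θ))
    rw [← ha] at this
    have h1 : (a : ℝ) * (2 * θ) < ((Real.pi - ρ / 2) / (2 * θ) + 1) * (2 * θ) :=
      mul_lt_mul_of_pos_right this (by positivity)
    rw [add_mul, div_mul_cancel₀ _ (by positivity)] at h1
    linarith
  have hb1 : (2 * b + 2) * θ ≤ Real.pi + ρ / 2 := by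
    have := Int.floor_le ((Real.pi + ρ / 2) / (2 * θ))
    rw [le_div_iff₀ (by positivity)] at this
    have e : ((⌊(Real.pi + ρ / 2) / (2 * θ)⌋ : ℤ) : ℝ) = b + 1 := by
      rw [hbd]; push_cast; ring
    rw [e] at this
    linarith
  have hb2 : Real.pi + ρ / 2 - 2 * θ < (2 * b + 2) * θ := by
    have := Int.lt_floor_add_one ((Real.pi + ρ / 2) / (2 * θ))
    rw [div_lt_iff₀ (by positivity)] at this
    have e : ((⌊(Real.pi + ρ / 2) / (2 * θ)⌋ : ℤ) : ℝ) = b + 1 := by
      rw [hbd]; push_cast; ring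
    rw [e] at this
    linarith
  have hab : a ≤ b := by
    by_contra hcon
    push Not at hcon
    have h1 : (b : ℝ) + 1 ≤ a := by exact_mod_cast hcon
    have := mul_le_mul_of_nonneg_right h1 (show 0 ≤ 2 * θ by positivity)
    linarith
  have hN : ((b : ℝ) - a + 1) * (2 * θ) ≤ ρ := by
    have e : ((b : ℝ) - a + 1) * (2 * θ) = (2 * b + 2) * θ - 2 * a * θ := by ring
    rw [e]
    linarith
  have eL : θ - Real.pi + ((a : ℝ) - 1 / 2) * (2 * θ) = 2 * a * θ - Real.pi := by ring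
  have eR : θ - Real.pi + ((b : ℝ) + 1 / 2) * (2 * θ) = (2 * b + 2) * θ - Real.pi := by ring
  have hrect : ∀ w : ℂ, θ - Real.pi + ((a : ℝ) - 1 / 2) * (2 * θ) ≤ w.re →
      w.re ≤ θ - Real.pi + ((b : ℝ) + 1 / 2) * (2 * θ) → |w.re| ≤ ρ / 2 := by
    intro w h1 h2
    rw [eL] at h1
    rw [eR] at h2
    rw [abs_le]
    constructor <;> linarith
  have hinball : ∀ w : ℂ, |w.re| ≤ ρ / 2 → |w.im| ≤ ρ / 6 → w ∈ Metric.ball (0 : ℂ) ρ := by
    intro w h1 h2
    rw [mem_ball_zero_iff]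
    have := Complex.norm_le_abs_re_add_abs_im w
    linarith
  have hnode : ∀ k : ℤ, a ≤ k → k ≤ b → ∃ j : ℕ, (j : ℤ) = k ∧ j < m ∧ |xk m j| < ρ ∧
      xk m j = θ - Real.pi + k * (2 * θ) := by
    intro k hk1 hk2
    have hk1' : (a : ℝ) ≤ k := by exact_mod_cast hk1
    have hk2' : (k : ℝ) ≤ b := by exact_mod_cast hk2
    have hk1'' : 2 * a * θ ≤ k * (2 * θ) := by
      have := mul_le_mul_of_nonneg_right hk1' (show 0 ≤ 2 * θ by positivity)
      linarith
    have hk2'' : k * (2 * θ) + 2 * θ ≤ (2 * b + 2) * θ := by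
      have := mul_le_mul_of_nonneg_right hk2' (show 0 ≤ 2 * θ by positivity)
      linarith
    have hk0 : 0 ≤ k := by
      have h1 : (0 : ℝ) < a := by
        by_contra hcon
        push Not at hcon
        have := mul_nonpos_of_nonpos_of_nonneg hcon hθ0.le
        linarith
      have h2 : (0 : ℝ) ≤ k := by linarith
      exact_mod_cast h2
    obtain ⟨j, rfl⟩ := Int.eq_ofNat_of_zero_le hk0
    have e : xk m j = θ - Real.pi + ((j : ℤ) : ℝ) * (2 * θ) := by
      unfold xk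
      rw [← hθ]
      push_cast
      ring
    refine ⟨j, rfl, ?_, ?_, e⟩
    · by_contra hcon
      push Not at hcon
      have h1 : (m : ℝ) ≤ j := by exact_mod_cast hcon
      have h2 : ((j : ℤ) : ℝ) = j := by push_cast; ring
      rw [h2] at hk2''
      have h3 := mul_le_mul_of_nonneg_right h1 (show 0 ≤ 2 * θ by positivity)
      linarith
    · rw [e, abs_lt]
      constructor
      · linarith
      · linarith
  -- the auxiliary function
  set g : ℂ → ℂ := fun w => h w * exp (-(w ^ 2) / (θ : ℂ)) with hg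
  have hgn : ∀ w : ℂ, w ∈ Metric.ball (0 : ℂ) ρ →
      ‖g w‖ ≤ Real.exp ((δ / 4 - (w.re ^ 2 - w.im ^ 2)) / θ) := by
    intro w hw
    rw [hg]
    simp only
    rw [norm_mul, norm_gauss]
    have e : (δ / 4 - (w.re ^ 2 - w.im ^ 2)) / θ = δ / 4 / θ + -(w.re ^ 2 - w.im ^ 2) / θ := by ring
    rw [e, Real.exp_add]
    exact mul_le_mul_of_nonneg_right (hb w hw) (Real.exp_nonneg _)
  have key := Pool.Agent.Helper66.LD.interp (x₀ := θ - Real.pi) (d := 2 * θ) (h := g) (η := ρ / 6)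
    (M₀ := Real.exp (-δ / θ)) (M₁ := Real.exp ((δ / 4 + (ρ / 6) ^ 2) / θ))
    (M₂ := Real.exp (-(3 / 4 * δ) / θ)) (m := a) (n := b) (by positivity) (by linarith)
    (Real.exp_nonneg _) (Real.exp_nonneg _) (Real.exp_nonneg _) hab ?_ ?_ ?_ ?_ z ?_ ?_ ?_
  rotate_left
  · intro w h1 h2 h3
    have hw : w ∈ Metric.ball (0 : ℂ) ρ := hinball w (hrect w h1 h2) h3
    have h4 := (hd w hw).differentiableAt (Metric.isOpen_ball.mem_nhds hw)
    rw [hg]
    fun_prop
  · intro k hk1 hk2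
    obtain ⟨j, hj, hjm, hjρ, e⟩ := hnode k hk1 hk2
    rw [← e, hg]
    simp only
    rw [norm_mul, norm_gauss]
    have h1 := hk j hjm hjρ
    have h2 : Real.exp (-(((xk m j : ℝ) : ℂ).re ^ 2 - ((xk m j : ℝ) : ℂ).im ^ 2) / θ) ≤ 1 := by
      rw [Real.exp_le_one_iff, ofReal_re, ofReal_im]
      apply div_nonpos_of_nonpos_of_nonneg _ hθ0.le
      linarith [sq_nonneg (xk m j)]
    calc _ ≤ Real.exp (-ε / θ) * 1 := mul_le_mul h1 h2 (Real.exp_nonneg _) (Real.exp_nonneg _)
      _ ≤ Real.exp (-δ / θ) := by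
          rw [mul_one, Real.exp_le_exp]
          exact div_le_div_of_nonneg_right (by linarith) hθ0.le
  · intro w h1 h2 h3
    have hw : w ∈ Metric.ball (0 : ℂ) ρ := hinball w (hrect w h1 h2) h3.le
    refine (hgn w hw).trans ?_
    rw [Real.exp_le_exp]
    apply div_le_div_of_nonneg_right _ hθ0.le
    have h4 : w.im ^ 2 = (ρ / 6) ^ 2 := by rw [← h3, sq_abs]
    rw [h4]
    linarith [sq_nonneg w.re]
  · intro w h1 h2
    have hw1 : |w.re| ≤ ρ / 2 ∧ ρ / 3 ≤ |w.re| := by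
      rcases h1 with h1 | h1
      · rw [h1]
        rw [eL]
        constructor
        · rw [abs_le]; constructor <;> linarith
        · rw [abs_of_neg (by linarith)]; linarith
      · rw [h1]
        rw [eR]
        constructor
        · rw [abs_le]; constructor <;> linarith
        · rw [abs_of_pos (by linarith)]; linarith
    have hw : w ∈ Metric.ball (0 : ℂ) ρ := hinball w hw1.1 h2
    refine (hgn w hw).trans ?_
    rw [Real.exp_le_exp]
    apply div_le_div_of_nonneg_right _ hθ0.le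
    have h3 : (ρ / 3) ^ 2 ≤ w.re ^ 2 := by
      rw [← sq_abs w.re]
      exact pow_le_pow_left₀ (by positivity) hw1.2 2
    have h4 : w.im ^ 2 ≤ (ρ / 6) ^ 2 := by
      rw [← sq_abs w.im]
      exact pow_le_pow_left₀ (abs_nonneg _) h2 2
    linarith
  · have := Complex.abs_re_le_norm z
    have h1 := neg_abs_le z.re
    rw [eL]
    linarith
  · have := Complex.abs_re_le_norm z
    have h1 := le_abs_self z.re
    rw [eR]
    linarith
  · have := Complex.abs_im_le_norm z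
    linarith
  -- conclusion
  have hzi : |z.im| ≤ δ / 16 := (Complex.abs_im_le_norm z).trans hz.le
  have hzr : |z.re| ≤ δ / 16 := (Complex.abs_re_le_norm z).trans hz.le
  have hgz : ‖h z‖ = ‖g z‖ * Real.exp ((z.re ^ 2 - z.im ^ 2) / θ) := by
    rw [hg]
    simp only
    rw [norm_mul, norm_gauss, mul_assoc, ← Real.exp_add, neg_div, neg_add_cancel, Real.exp_zero, mul_one]
  have h1 : 3 * Real.exp (-(Real.pi / (2 * θ) * (ρ / 6))) * Real.exp ((δ / 4 + (ρ / 6) ^ 2) / θ) ≤
      3 * Real.exp (-(3 / 4 * δ) / θ) := by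
    rw [mul_assoc, ← Real.exp_add]
    refine mul_le_mul_of_nonneg_left ?_ (by norm_num)
    rw [Real.exp_le_exp]
    have e : -(Real.pi / (2 * θ) * (ρ / 6)) + (δ / 4 + (ρ / 6) ^ 2) / θ =
        (-(Real.pi * ρ / 12) + δ / 4 + (ρ / 6) ^ 2) / θ := by
      field_simp
      ring
    rw [e]
    apply div_le_div_of_nonneg_right _ hθ0.le
    linarith
  have h2 : 4 * ((b : ℝ) - a + 1) * Real.exp (-δ / θ) ≤ 4 / θ * Real.exp (-(3 / 4 * δ) / θ) := by
    refine mul_le_mul ?_ ?_ (Real.exp_nonneg _) (by positivity)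
    · rw [le_div_iff₀ hθ0]
      linarith
    · rw [Real.exp_le_exp]
      apply div_le_div_of_nonneg_right _ hθ0.le
      linarith
  have h3 : Real.exp (Real.pi / (2 * θ) * |z.im|) * Real.exp ((z.re ^ 2 - z.im ^ 2) / θ) ≤
      Real.exp (δ / 4 / θ) := by
    rw [← Real.exp_add, Real.exp_le_exp]
    have e : Real.pi / (2 * θ) * |z.im| + (z.re ^ 2 - z.im ^ 2) / θ =
        (Real.pi * |z.im| / 2 + z.re ^ 2 - z.im ^ 2) / θ := by
      field_simp
      ring
    rw [e]
    apply div_le_div_of_nonneg_right _ hθ0.le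
    have h4 : z.re ^ 2 ≤ (δ / 16) ^ 2 := by
      rw [← sq_abs z.re]
      exact pow_le_pow_left₀ (abs_nonneg _) hzr 2
    have h5 : Real.pi * |z.im| ≤ 4 * (δ / 16) := mul_le_mul hpi4 hzi (abs_nonneg _) (by norm_num)
    linarith [sq_nonneg z.im]
  have h4 : 4 + 4 / θ ≤ Real.exp (δ / 4 / θ) := by
    have hx : 0 ≤ δ / 4 / θ := by positivity
    have := Real.quadratic_le_exp_of_nonneg hx
    have h5 : 4 + 4 / θ ≤ (δ / 4 / θ) ^ 2 / 2 := by
      have e : (δ / 4 / θ) ^ 2 / 2 = (δ ^ 2 / (32 * θ)) / θ := by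
        field_simp
        ring
      have e2 : 4 + 4 / θ = (4 * θ + 4) / θ := by
        field_simp
      rw [e, e2]
      apply div_le_div_of_nonneg_right _ hθ0.le
      rw [le_div_iff₀ (by positivity)]
      linarith
    linarith
  rw [hgz]
  calc ‖g z‖ * Real.exp ((z.re ^ 2 - z.im ^ 2) / θ)
      ≤ (Real.exp (Real.pi / (2 * θ) * |z.im|) * ((4 + 4 / θ) * Real.exp (-(3 / 4 * δ) / θ))) *
        Real.exp ((z.re ^ 2 - z.im ^ 2) / θ) := by
        refine mul_le_mul_of_nonneg_right (key.trans ?_) (Real.exp_nonneg _)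
        refine mul_le_mul_of_nonneg_left ?_ (Real.exp_nonneg _)
        linarith
    _ = (Real.exp (Real.pi / (2 * θ) * |z.im|) * Real.exp ((z.re ^ 2 - z.im ^ 2) / θ)) *
        ((4 + 4 / θ) * Real.exp (-(3 / 4 * δ) / θ)) := by ring
    _ ≤ Real.exp (δ / 4 / θ) * (Real.exp (δ / 4 / θ) * Real.exp (-(3 / 4 * δ) / θ)) := by
        refine mul_le_mul h3 (mul_le_mul_of_nonneg_right h4 (Real.exp_nonneg _)) (by positivity)
          (Real.exp_nonneg _)
    _ = Real.exp (-(δ / 4) / θ) := by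
        rw [← Real.exp_add, ← Real.exp_add]
        congr 1
        ring

end V1

open V1

theorem lat6 {ρ ε : ℝ} (hρ : 0 < ρ) (hρ1 : ρ ≤ 1/10) (hε : 0 < ε) : ∃ ρ' > 0, ∃ ε' > 0, ∃ η > 0,
    ∀ᶠ m : ℕ in atTop, ∀ f : (Fin 6 → ℂ) → ℂ, DifferentiableOn ℂ f (PD ρ) →
      (∀ x ∈ PD ρ, ‖f x‖ ≤ Real.exp (η / th m)) →
      (∀ k : Fin 6 → ℕ, (∀ i, k i < m) → (∀ i, |xk m (k i)| < ρ) →
        ‖f (fun i => (xk m (k i) : ℂ))‖ ≤ Real.exp (-ε / th m)) →
      ∀ x ∈ PD ρ', ‖f x‖ ≤ Real.exp (-ε' / th m) := by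
  classical
  have hind : ∀ j : ℕ, j ≤ 6 → ∃ ρ' > 0, ρ' ≤ ρ ∧ ∃ ε' > 0, ∃ η > 0,
      ∀ᶠ m : ℕ in atTop, ∀ f : (Fin 6 → ℂ) → ℂ, DifferentiableOn ℂ f (PD ρ) →
      (∀ x ∈ PD ρ, ‖f x‖ ≤ Real.exp (η / th m)) →
      (∀ k : Fin 6 → ℕ, (∀ i, k i < m) → (∀ i, |xk m (k i)| < ρ) →
        ‖f (fun i => (xk m (k i) : ℂ))‖ ≤ Real.exp (-ε / th m)) →
      ∀ x : Fin 6 → ℂ, (∀ i, i.1 < j → ‖x i‖ < ρ') →
        (∀ i, j ≤ i.1 → ∃ k, k < m ∧ |xk m k| < ρ ∧ x i = (xk m k : ℂ)) →
        ‖f x‖ ≤ Real.exp (-ε' / th m) := by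
    intro j
    induction j with
    | zero =>
      intro _
      refine ⟨ρ, hρ, le_rfl, ε, hε, 1, one_pos, Eventually.of_forall fun m f _ _ h3 x _ hx => ?_⟩
      choose k hk1 hk2 hk3 using fun i => hx i (Nat.zero_le _)
      have e : x = fun i => (xk m (k i) : ℂ) := funext hk3
      rw [e]
      exact h3 k hk1 hk2
    | succ j ih =>
      intro hj
      obtain ⟨ρ₁, hρ₁, hρ₁', ε₁, hε₁, η₁, hη₁, ih⟩ := ih (by omega)
      obtain ⟨ρ₂, hρ₂, hρ₂', ε₂, hε₂, η₂, hη₂, h1⟩ := lat1 hρ hρ1 hε₁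
      refine ⟨min ρ₁ ρ₂, lt_min hρ₁ hρ₂, (min_le_left _ _).trans hρ₁', ε₂, hε₂, min η₁ η₂,
        lt_min hη₁ hη₂, ?_⟩
      filter_upwards [ih, h1] with m ih h1 f hf hb hk x hx1 hx2
      have hθ0 : 0 < th m := th_pos m
      set i₀ : Fin 6 := ⟨j, by omega⟩ with hi₀
      have hxρ : ∀ i, ‖x i‖ < ρ := by
        intro i
        by_cases hi : i.1 < j + 1
        · exact (hx1 i hi).trans_le ((min_le_left _ _).trans hρ₁')
        · obtain ⟨k, _, hk2, hk3⟩ := hx2 i (by omega)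
          rw [hk3, Complex.norm_real]
          exact hk2
      have hup : ∀ z ∈ Metric.ball (0 : ℂ) ρ, Function.update x i₀ z ∈ PD ρ := by
        intro z hz i
        rw [mem_ball_zero_iff] at hz
        by_cases hi : i = i₀
        · rw [hi, Function.update_self]
          exact hz
        · rw [Function.update_of_ne hi]
          exact hxρ i
      have h2 := h1 (fun z => f (Function.update x i₀ z)) ?_ ?_ ?_ (x i₀) ?_
      · rw [Function.update_eq_self] at h2
        exact h2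
      · refine hf.comp ?_ hup
        intro z _
        refine DifferentiableAt.differentiableWithinAt (differentiableAt_pi.2 fun i => ?_)
        by_cases hi : i = i₀
        · have e : (fun z : ℂ => Function.update x i₀ z i) = fun z => z := by
            funext z
            rw [hi, Function.update_self]
          rw [e]
          exact differentiableAt_id
        · have e : (fun z : ℂ => Function.update x i₀ z i) = fun _ => x i := by
            funext z
            rw [Function.update_of_ne hi]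
          rw [e]
          exact differentiableAt_const _
      · intro z hz
        refine (hb _ (hup z hz)).trans ?_
        rw [Real.exp_le_exp]
        exact div_le_div_of_nonneg_right (min_le_right _ _) hθ0.le
      · intro k hkm hkρ
        refine ih f hf (fun y hy => (hb y hy).trans ?_) hk _ ?_ ?_
        · rw [Real.exp_le_exp]
          exact div_le_div_of_nonneg_right (min_le_left _ _) hθ0.le
        · intro i hi
          have hne : i ≠ i₀ := by
            rintro rfl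
            exact lt_irrefl _ hi
          rw [Function.update_of_ne hne]
          exact (hx1 i (by omega)).trans_le (min_le_left _ _)
        · intro i hi
          by_cases hii : i = i₀
          · rw [hii, Function.update_self]
            exact ⟨k, hkm, hkρ, rfl⟩
          · rw [Function.update_of_ne hii]
            refine hx2 i ?_
            have : i.1 ≠ j := fun h => hii (Fin.ext h)
            omega
      · rw [mem_ball_zero_iff]
        exact (hx1 i₀ (Nat.lt_succ_self j)).trans_le (min_le_right _ _)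
  obtain ⟨ρ', hρ', _, ε', hε', η, hη, h⟩ := hind 6 le_rfl
  refine ⟨ρ', hρ', ε', hε', η, hη, ?_⟩
  filter_upwards [h] with m h f hf hb hk x hx
  exact h f hf hb hk x (fun i _ => hx i) (fun i hi => absurd i.2 (by omega))

end Pool.Agent.Helper48.SB
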